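import Pool.Agent.H560R3.TC.Stm

/-!
Arithmetic of the lower bound (helper959).
-/

set_option autoImplicit false

namespace Pool.Agent.H560R3.TC

theorem t_ARL : S_ARL := by
  intro k
  refine ⟨1 / 10000, by norm_num, 180 * k + 200, fun m hm n hn t ht => ?_⟩
  -- `n` is between `m / 20` and `m`
  have h18 : 18 * n + 20 ≥ m := by omega
  have hnm : n ≤ m := by omega
  have h20 : m ≤ 20 * n := by omega
  have hnk : 9 * k + 1 ≤ n := by omega
  have hn2 : 2 ≤ n := by omega
  have hmr : (200 : ℝ) ≤ m := by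
    have : 200 ≤ m := by omega
    exact_mod_cast this
  have hm0 : (0 : ℝ) < m := by linarith
  have hlog1 : 1 ≤ Real.log m := by
    have h3 : Real.exp 1 ≤ m := by linarith [Real.exp_one_lt_d9]
    have := Real.log_le_log (Real.exp_pos 1) h3
    rwa [Real.log_exp] at this
  have hlm : 0 < Real.log m := by linarith
  have h20r : (m : ℝ) ≤ 20 * n := by exact_mod_cast h20
  have hn2r : (2 : ℝ) ≤ n := by exact_mod_cast hn2
  have hsq : (m : ℝ) ^ 2 ≤ 400 * (n : ℝ) ^ 2 := by nlinarith
  rw [mul_div_assoc', div_le_iff₀ hlm]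
  by_cases htn : n * n < t
  · have h1 : (n : ℝ) ^ 2 ≤ t := by
      have : n * n ≤ t := htn.le
      have h2 : ((n * n : ℕ) : ℝ) ≤ (t : ℝ) := by exact_mod_cast this
      push_cast at h2
      nlinarith
    have h2 : (t : ℝ) * 1 ≤ t * Real.log m := mul_le_mul_of_nonneg_left hlog1 (Nat.cast_nonneg _)
    nlinarith
  · push Not at htn
    have ht1 : 1 ≤ t := by
      by_contra h0
      have h00 : t = 0 := by omega
      subst h00
      simp only [mul_zero, zero_add, pow_zero, mul_one, one_mul, pow_one] at ht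
      have : 2 ^ 4 ≤ 2 ^ (n * n) := Nat.pow_le_pow_right (by norm_num) (by nlinarith)
      omega
    have hA : 2 * t + 1 ≤ n ^ 5 := by
      have h1 : 2 * t + 1 ≤ 3 * (n * n) := by nlinarith
      have h2 : 3 * (n * n) ≤ n ^ 3 * (n * n) := by
        apply Nat.mul_le_mul_right
        have : 2 ^ 3 ≤ n ^ 3 := Nat.pow_le_pow_left hn2 3
        omega
      calc 2 * t + 1 ≤ n ^ 3 * (n * n) := h1.trans h2
        _ = n ^ 5 := by ring
    have hB : (2 * t + 1) ^ 2 * k + 1 ≤ n ^ 5 := by
      have h1 : 2 * t + 1 ≤ 3 * (n * n) := by nlinarith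
      have h2 : (2 * t + 1) ^ 2 ≤ (3 * (n * n)) ^ 2 := Nat.pow_le_pow_left h1 2
      have h3 : 1 ≤ n ^ 4 := Nat.one_le_pow _ _ (by omega)
      calc (2 * t + 1) ^ 2 * k + 1 ≤ (3 * (n * n)) ^ 2 * k + n ^ 4 :=
            Nat.add_le_add (Nat.mul_le_mul_right k h2) h3
        _ = n ^ 4 * (9 * k + 1) := by ring
        _ ≤ n ^ 4 * n := Nat.mul_le_mul_left _ hnk
        _ = n ^ 5 := by ring
    have hC : 2 ^ (n * n) ≤ n ^ 5 * (n ^ 5) ^ t * 2 ^ (2 * t + 1) := by
      refine ht.trans ?_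
      exact Nat.mul_le_mul_right _ (Nat.mul_le_mul hA (Nat.pow_le_pow_left hB t))
    have hn0 : (0 : ℝ) < n := by linarith
    have hD : ((2 : ℝ)) ^ (n * n) ≤ (n : ℝ) ^ 5 * ((n : ℝ) ^ 5) ^ t * 2 ^ (2 * t + 1) := by
      exact_mod_cast hC
    have hE := Real.log_le_log (by positivity) hD
    rw [Real.log_mul (by positivity) (by positivity), Real.log_mul (by positivity) (by positivity),
      Real.log_pow, Real.log_pow, Real.log_pow, Real.log_pow, Real.log_pow] at hE
    push_cast at hE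
    have hl2 : 0.69 < Real.log 2 := by linarith [Real.log_two_gt_d9]
    have hln : Real.log 2 ≤ Real.log n := Real.log_le_log (by norm_num) hn2r
    have hnm' : Real.log n ≤ Real.log m := Real.log_le_log hn0 (by exact_mod_cast hnm)
    have ht1r : (1 : ℝ) ≤ t := by exact_mod_cast ht1
    have ht0 : (0 : ℝ) ≤ t := by linarith
    have hF : (n : ℝ) ^ 2 * Real.log 2 ≤ 13 * (t * Real.log n) := by
      have e1 : (2 * (t : ℝ) + 1) * Real.log 2 ≤ (2 * (t : ℝ) + 1) * Real.log n :=
        mul_le_mul_of_nonneg_left hln (by linarith)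
      have e2 : Real.log n ≤ t * Real.log n := by
        have : 0 ≤ Real.log n := by linarith
        nlinarith
      nlinarith
    have hG : (t : ℝ) * Real.log n ≤ t * Real.log m := mul_le_mul_of_nonneg_left hnm' ht0
    have hH : 0.69 * (n : ℝ) ^ 2 ≤ (n : ℝ) ^ 2 * Real.log 2 := by nlinarith [sq_nonneg (n : ℝ)]
    linarith [sq_nonneg (n : ℝ)]

end Pool.Agent.H560R3.TC
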