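import Pool.Agent.H560R3.TC.Stm

/-! Task ARU. -/

set_option autoImplicit false

namespace Pool.Agent.H560R3.TC

theorem ARU_pow (l : ℕ) (m : ℝ) (h : (2 : ℝ) ^ l ≤ m) : (2 : ℝ) ^ (l / 2 + 1) ≤ 2 * √m := by
  rw [pow_succ, mul_comm]
  apply mul_le_mul_of_nonneg_left _ (by norm_num)
  apply Real.le_sqrt_of_sq_le
  rw [← pow_mul]
  refine le_trans (pow_le_pow_right₀ (by norm_num) ?_) h
  omega

theorem t_ARU : S_ARU := by
  intro k
  refine ⟨21 * (k : ℝ) ^ 2 + 15 * k, fun m hm => ⟨Nat.log 2 m / 2 + 1, by omega, ?_⟩⟩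
  set l := Nat.log 2 m with hl
  set L := l / 2 + 1 with hL
  have hm' : (2 : ℝ) ≤ m := by exact_mod_cast hm
  have hm0 : (0 : ℝ) < m := by linarith
  have hlog : 0 < Real.log m := Real.log_pos (by linarith)
  have hL1 : (0 : ℝ) < L := by rw [hL]; positivity
  have h1 : Real.log m ≤ 2 * L := by
    have a1 : m < 2 ^ (l + 1) := Nat.lt_pow_succ_log_self (by norm_num) m
    have a2 : (m : ℝ) ≤ 2 ^ (l + 1) := by exact_mod_cast a1.le
    have a3 := Real.log_le_log hm0 a2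
    rw [Real.log_pow] at a3
    have a4 : Real.log 2 ≤ 1 := by
      have := Real.log_two_lt_d9
      linarith
    have a5 : ((l + 1 : ℕ) : ℝ) ≤ ((2 * L : ℕ) : ℝ) := by
      have : l + 1 ≤ 2 * L := by omega
      exact_mod_cast this
    have a6 : (0 : ℝ) ≤ ((l + 1 : ℕ) : ℝ) := Nat.cast_nonneg _
    push_cast at a3 a5 a6
    nlinarith
  have h2 : (2 : ℝ) ^ L ≤ 2 * √m := by
    apply ARU_pow
    have : 2 ^ l ≤ m := Nat.pow_log_le_self 2 (by omega)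
    exact_mod_cast this
  set R := (m : ℝ) ^ 2 / Real.log m with hR
  have hsq : √(m : ℝ) * √m = m := Real.mul_self_sqrt hm0.le
  have hs0 : 0 < √(m : ℝ) := Real.sqrt_pos.2 hm0
  -- `log m ≤ 2 √m`, `log m ≤ m`
  have h3 : Real.log m ≤ 2 * √m := by
    have b1 : Real.log (√m) ≤ √m - 1 := Real.log_le_sub_one_of_pos hs0
    rw [Real.log_sqrt hm0.le] at b1
    linarith
  have h4 : Real.log m ≤ m := by
    have := Real.log_le_sub_one_of_pos hm0
    linarith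
  have r1 : (m : ℝ) ≤ R := by
    rw [hR, le_div_iff₀ hlog]
    nlinarith
  have r2 : (m : ℝ) * √m ≤ 2 * R := by
    rw [hR, mul_div_assoc', le_div_iff₀ hlog]
    have : (m : ℝ) * √m * Real.log m ≤ m * √m * (2 * √m) :=
      mul_le_mul_of_nonneg_left h3 (by positivity)
    have e : (m : ℝ) * √m * (2 * √m) = 2 * m * (√m * √m) := by ring
    rw [e, hsq] at this
    nlinarith
  have r3 : (m : ℝ) * (m / L) ≤ 2 * R := by
    rw [hR, mul_div_assoc', mul_div_assoc', div_le_div_iff₀ hL1 hlog]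
    have : (m : ℝ) * m * Real.log m ≤ m * m * (2 * L) :=
      mul_le_mul_of_nonneg_left h1 (by positivity)
    nlinarith
  have hk : (0 : ℝ) ≤ k := Nat.cast_nonneg k
  have hR0 : 0 ≤ R := by linarith
  have d1 : (((2 * m + 1) / L : ℕ) : ℝ) ≤ 3 * (m / L) := by
    refine Nat.cast_div_le.trans ?_
    rw [← mul_div_assoc]
    apply div_le_div_of_nonneg_right _ hL1.le
    push_cast
    linarith
  have d2 : ((2 * m + 1 : ℕ) : ℝ) ≤ 3 * m := by
    push_cast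
    linarith
  have d0 : (0 : ℝ) ≤ ((2 * m + 1 : ℕ) : ℝ) := Nat.cast_nonneg _
  have t1 : (k : ℝ) * k * ((2 * m + 1 : ℕ) : ℝ) * ((((2 * m + 1) / L : ℕ) : ℝ) + 1) ≤
      21 * (k : ℝ) ^ 2 * R := by
    have e1 : ((2 * m + 1 : ℕ) : ℝ) * ((((2 * m + 1) / L : ℕ) : ℝ) + 1) ≤
        3 * m * (3 * (m / L) + 1) :=
      mul_le_mul d2 (by linarith) (by positivity) (by positivity)
    have e2 : 3 * (m : ℝ) * (3 * (m / L) + 1) ≤ 21 * R := by nlinarith
    have e3 : (k : ℝ) * k * (((2 * m + 1 : ℕ) : ℝ) * ((((2 * m + 1) / L : ℕ) : ℝ) + 1)) ≤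
        k * k * (21 * R) := mul_le_mul_of_nonneg_left (e1.trans e2) (by positivity)
    nlinarith
  have t2 : (k : ℝ) * ((2 * m + 1 : ℕ) : ℝ) * 2 ^ L ≤ 12 * k * R := by
    have e1 : ((2 * m + 1 : ℕ) : ℝ) * 2 ^ L ≤ 3 * m * (2 * √m) :=
      mul_le_mul d2 h2 (by positivity) (by positivity)
    have e2 : 3 * (m : ℝ) * (2 * √m) ≤ 12 * R := by nlinarith
    have e3 : (k : ℝ) * (((2 * m + 1 : ℕ) : ℝ) * 2 ^ L) ≤ k * (12 * R) :=
      mul_le_mul_of_nonneg_left (e1.trans e2) hk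
    nlinarith
  have t3 : (k : ℝ) * ((2 * m + 1 : ℕ) : ℝ) ≤ 3 * k * R := by
    have e3 : (k : ℝ) * ((2 * m + 1 : ℕ) : ℝ) ≤ k * (3 * R) :=
      mul_le_mul_of_nonneg_left (by linarith) hk
    nlinarith
  have e : ((k * k * (2 * m + 1) * ((2 * m + 1) / L + 1) + k * (2 * m + 1) * 2 ^ L +
      k * (2 * m + 1) : ℕ) : ℝ) = (k : ℝ) * k * ((2 * m + 1 : ℕ) : ℝ) *
      ((((2 * m + 1) / L : ℕ) : ℝ) + 1) + (k : ℝ) * ((2 * m + 1 : ℕ) : ℝ) * 2 ^ L +
      (k : ℝ) * ((2 * m + 1 : ℕ) : ℝ) := by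
    push_cast
    ring
  rw [e]
  nlinarith

end Pool.Agent.H560R3.TC
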