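import Pool.Agent.H560R3.TC.Stm

/-!
Assembly of the parts.
-/

set_option autoImplicit false

namespace Pool.Agent.H560R3.TC

theorem bdd_of_up0 (h : S_UP0) (k m : ℕ) : BddAbove (vals k m) :=
  ⟨_, fun _ ht => h k m 1 _ le_rfl ht⟩

theorem isGreatest_g (h1 : S_UP0) (h2 : S_NE) (k m : ℕ) : IsGreatest (vals k m) (g k m) :=
  ⟨Nat.sSup_mem (h2 k m) (bdd_of_up0 h1 k m), fun _ ht => le_csSup (bdd_of_up0 h1 k m) ht⟩

theorem g_upper (h1 : S_UP0) (h2 : S_NE) (h3 : S_UP) (k : ℕ) :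
    ∃ C : ℝ, ∀ m : ℕ, 2 ≤ m → (g k m : ℝ) ≤ C * ((m : ℝ) ^ 2 / Real.log m) := by
  obtain ⟨C, hC⟩ := h3 k
  exact ⟨C, fun m hm => hC m hm _ (isGreatest_g h1 h2 k m).1⟩

theorem g_lower (h1 : S_UP0) (h2 : S_NE) (h4 : S_LOW) (k : ℕ) (hk : 2 ≤ k) :
    ∃ c : ℝ, 0 < c ∧ ∃ M : ℕ, ∀ m : ℕ, M ≤ m →
      c * ((m : ℝ) ^ 2 / Real.log m) ≤ (g k m : ℝ) := by
  obtain ⟨c, hc, M, hM⟩ := h4 k hk
  refine ⟨c, hc, M, fun m hm => ?_⟩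
  obtain ⟨t, ht, hle⟩ := hM m hm
  exact hle.trans (by exact_mod_cast (isGreatest_g h1 h2 k m).2 ht)

theorem g_small (h1 : S_UP0) (h2 : S_NE) (h3 : S_UP) (k : ℕ) :
    Filter.Tendsto (fun m : ℕ => (g k m : ℝ) / (m : ℝ) ^ 2) Filter.atTop (nhds 0) := by
  obtain ⟨C, hC⟩ := g_upper h1 h2 h3 k
  have hlog : Filter.Tendsto (fun m : ℕ => C / Real.log (m : ℝ)) Filter.atTop (nhds 0) :=
    Filter.Tendsto.const_div_atTop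
      (Real.tendsto_log_atTop.comp tendsto_natCast_atTop_atTop) C
  refine tendsto_of_tendsto_of_tendsto_of_le_of_le' tendsto_const_nhds hlog ?_ ?_
  · filter_upwards with m
    positivity
  · filter_upwards [Filter.eventually_ge_atTop 2] with m hm
    have hm0 : (0 : ℝ) < (m : ℝ) := by
      have : 0 < m := by omega
      exact_mod_cast this
    have h5 := hC m hm
    rw [div_le_iff₀ (by positivity)]
    calc (g k m : ℝ) ≤ C * ((m : ℝ) ^ 2 / Real.log m) := h5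
      _ = C / Real.log (m : ℝ) * (m : ℝ) ^ 2 := by ring

theorem main (h1 : S_UP0) (h2 : S_NE) (h3 : S_UP) (h4 : S_LOW) :
    (∀ k m : ℕ, IsGreatest (vals k m) (g k m)) ∧
    (∀ k : ℕ, ∃ C : ℝ, ∀ m : ℕ, 2 ≤ m → (g k m : ℝ) ≤ C * ((m : ℝ) ^ 2 / Real.log m)) ∧
    (∀ k : ℕ, 2 ≤ k → ∃ c : ℝ, 0 < c ∧ ∃ M : ℕ, ∀ m : ℕ, M ≤ m →
      c * ((m : ℝ) ^ 2 / Real.log m) ≤ (g k m : ℝ)) ∧
    (∀ k : ℕ, Filter.Tendsto (fun m : ℕ => (g k m : ℝ) / (m : ℝ) ^ 2) Filter.atTop (nhds 0)) :=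
  ⟨isGreatest_g h1 h2, g_upper h1 h2 h3, g_lower h1 h2 h4, g_small h1 h2 h3⟩

end Pool.Agent.H560R3.TC
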