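import Pool.Agent.H560R3.TC.Stm

/-!
The block construction.
-/

set_option autoImplicit false

namespace Pool.Agent.H560R3.TC

namespace Blk

variable {Q B Λ K : Type}

/-- the offsets of the states of block `J` reachable from `q` by the word `a x` -/
def tgt (δ : Set (Q × K × Q)) (blk : Q → B) (off : Q → Λ) (q : Q) (a : K) (J : B) (x : K) : Set Λ :=
  {l | ∃ y, blk y = J ∧ off y = l ∧ ∃ s', (q, a, s') ∈ δ ∧ (s', x, y) ∈ δ}

/-- the new transitions, as a predicate -/
def Step (δ : Set (Q × K × Q)) (F : Set Q) (blk : Q → B) (off : Q → Λ) :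
    (Q ⊕ (B × Finset Λ × K) ⊕ Unit) → K → (Q ⊕ (B × Finset Λ × K) ⊕ Unit) → Prop
  | Sum.inl _, _, Sum.inl _ => False
  | Sum.inl q, a, Sum.inr (Sum.inl m) => (m.2.1 : Set Λ) = tgt δ blk off q a m.1 m.2.2
  | Sum.inl q, a, Sum.inr (Sum.inr _) => ∃ f ∈ F, (q, a, f) ∈ δ
  | Sum.inr (Sum.inl m), x, Sum.inl y => x = m.2.2 ∧ blk y = m.1 ∧ off y ∈ m.2.1
  | Sum.inr (Sum.inl _), _, Sum.inr _ => False
  | Sum.inr (Sum.inr _), _, _ => False

theorem two_step [Finite Λ] (δ : Set (Q × K × Q)) (F : Set Q) (blk : Q → B) (off : Q → Λ)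
    (hinj : ∀ y y', blk y = blk y' → off y = off y' → y = y') (q : Q) (a x : K)
    (z : Q ⊕ (B × Finset Λ × K) ⊕ Unit) :
    (∃ r, Step δ F blk off (Sum.inl q) a r ∧ Step δ F blk off r x z) ↔
      ∃ y, z = Sum.inl y ∧ ∃ s', (q, a, s') ∈ δ ∧ (s', x, y) ∈ δ := by
  constructor
  · rintro ⟨r, h1, h2⟩
    rcases r with r | ⟨J, T, x'⟩ | r
    · exact h1.elim
    · rcases z with y | z
      · obtain ⟨h3, h4, h5⟩ := h2
        refine ⟨y, rfl, ?_⟩
        simp only [Step] at h1
        have h6 : off y ∈ (T : Set Λ) := by simpa using h5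
        rw [h1] at h6
        obtain ⟨y', h7, h8, h9⟩ := h6
        have h10 : y' = y := hinj _ _ (h7.trans h4.symm) h8
        subst h10
        simp only at h3
        subst h3
        exact h9
      · exact h2.elim
    · exact h2.elim
  · rintro ⟨y, rfl, h⟩
    have hfin : (tgt δ blk off q a (blk y) x).Finite := Set.toFinite _
    refine ⟨Sum.inr (Sum.inl (blk y, hfin.toFinset, x)), ?_, ?_⟩
    · simp only [Step]
      exact hfin.coe_toFinset
    · refine ⟨rfl, rfl, ?_⟩
      simp only [Set.Finite.mem_toFinset]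
      exact ⟨y, rfl, rfl, h⟩

theorem accept [Finite Λ] (δ : Set (Q × K × Q)) (F : Set Q) (blk : Q → B) (off : Q → Λ)
    (hinj : ∀ y y', blk y = blk y' → off y = off y' → y = y')
    (D : Set ((Q ⊕ (B × Finset Λ × K) ⊕ Unit) × K × (Q ⊕ (B × Finset Λ × K) ⊕ Unit)))
    (hD : ∀ p a r, (p, a, r) ∈ D ↔ Step δ F blk off p a r)
    (G : Set (Q ⊕ (B × Finset Λ × K) ⊕ Unit))
    (hG1 : ∀ q, Sum.inl q ∈ G ↔ q ∈ F)
    (hG2 : ∀ m, Sum.inr (Sum.inl m) ∉ G)
    (hG3 : Sum.inr (Sum.inr ()) ∈ G) :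
    ∀ (n : ℕ) (w : List K), w.length ≤ n → ∀ q : Q,
      ((∃ z ∈ G, Run D (Sum.inl q) w z) ↔ ∃ f ∈ F, Run δ q w f) := by
  intro n
  induction n using Nat.strong_induction_on with
  | _ n ih =>
    intro w hw q
    match w, hw with
    | [], _ =>
      simp only [Run]
      constructor
      · rintro ⟨z, hz, rfl⟩
        exact ⟨q, (hG1 q).1 hz, rfl⟩
      · rintro ⟨f, hf, rfl⟩
        exact ⟨Sum.inl q, (hG1 q).2 hf, rfl⟩
    | [a], _ =>
      simp only [Run]
      constructor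
      · rintro ⟨z, hz, r, h1, rfl⟩
        rw [hD] at h1
        rcases r with r | m | u
        · exact h1.elim
        · exact (hG2 m hz).elim
        · obtain ⟨f, hf, h2⟩ := h1
          exact ⟨f, hf, f, h2, rfl⟩
      · rintro ⟨f, hf, r, h1, rfl⟩
        refine ⟨Sum.inr (Sum.inr ()), hG3, Sum.inr (Sum.inr ()), ?_, rfl⟩
        rw [hD]
        exact ⟨r, hf, h1⟩
    | a :: x :: w, hw =>
      have h2 : ∀ z, Run D (Sum.inl q) (a :: x :: w) z ↔
          ∃ y, (∃ s', (q, a, s') ∈ δ ∧ (s', x, y) ∈ δ) ∧ Run D (Sum.inl y) w z := by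
        intro z
        simp only [Run]
        constructor
        · rintro ⟨r, h3, r', h4, h5⟩
          rw [hD] at h3 h4
          obtain ⟨y, rfl, h6⟩ := (two_step δ F blk off hinj q a x r').1 ⟨r, h3, h4⟩
          exact ⟨y, h6, h5⟩
        · rintro ⟨y, h6, h5⟩
          obtain ⟨r, h3, h4⟩ := (two_step δ F blk off hinj q a x (Sum.inl y)).2 ⟨y, rfl, h6⟩
          exact ⟨r, (hD _ _ _).2 h3, Sum.inl y, (hD _ _ _).2 h4, h5⟩
      simp only [List.length_cons] at hw
      have h7 := ih w.length (by omega) w le_rfl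
      constructor
      · rintro ⟨z, hz, h8⟩
        obtain ⟨y, ⟨s', h9, h10⟩, h11⟩ := (h2 z).1 h8
        obtain ⟨f, hf, h12⟩ := (h7 y).1 ⟨z, hz, h11⟩
        exact ⟨f, hf, s', h9, y, h10, h12⟩
      · rintro ⟨f, hf, s', h9, y, h10, h12⟩
        obtain ⟨z, hz, h11⟩ := (h7 y).2 ⟨f, hf, h12⟩
        exact ⟨z, hz, (h2 z).2 ⟨y, ⟨s', h9, h10⟩, h11⟩⟩

end Blk

open Blk in
theorem t_BLK : S_BLK := by
  classical
  intro k N L hL Q _ hN δ s F
  obtain ⟨e⟩ : Nonempty (Q ≃ Fin N) := by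
    rw [← hN]
    exact ⟨Fintype.equivFin Q⟩
  have hB : ∀ q, ((e q : ℕ)) / L < N / L + 1 := by
    intro q
    have h1 : (e q : ℕ) / L ≤ N / L := Nat.div_le_div_right (e q).2.le
    omega
  have hO : ∀ q, ((e q : ℕ)) % L < L := fun q => Nat.mod_lt _ (by omega)
  set blk : Q → Fin (N / L + 1) := fun q => ⟨(e q : ℕ) / L, hB q⟩ with hblk
  set off : Q → Fin L := fun q => ⟨(e q : ℕ) % L, hO q⟩ with hoff
  have hinj : ∀ y y', blk y = blk y' → off y = off y' → y = y' := by
    intro y y' h1 h2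
    have h3 : (e y : ℕ) / L = (e y' : ℕ) / L := by
      simpa [hblk] using h1
    have h4 : (e y : ℕ) % L = (e y' : ℕ) % L := by
      simpa [hoff] using h2
    apply e.injective
    apply Fin.ext
    rw [← Nat.div_add_mod (e y : ℕ) L, ← Nat.div_add_mod (e y' : ℕ) L, h3, h4]
  let M := Q ⊕ (Fin (N / L + 1) × Finset (Fin L) × Fin k) ⊕ Unit
  let T : Q → Fin k → Fin (N / L + 1) → Fin k → Finset (Fin L) := fun q a J x =>
    (Set.toFinite (tgt δ blk off q a J x)).toFinset
  have hT : ∀ q a J x, ((T q a J x : Finset (Fin L)) : Set (Fin L)) = tgt δ blk off q a J x := by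
    intro q a J x
    exact Set.Finite.coe_toFinset _
  let t1 : Finset (M × Fin k × M) :=
    (Finset.univ : Finset (Q × Fin k × Fin (N / L + 1) × Fin k)).image
      (fun p => (Sum.inl p.1, p.2.1, Sum.inr (Sum.inl (p.2.2.1, T p.1 p.2.1 p.2.2.1 p.2.2.2,
        p.2.2.2))))
  let t2 : Finset (M × Fin k × M) :=
    ((Finset.univ : Finset (Q × Finset (Fin L) × Fin k)).filter (fun p => off p.1 ∈ p.2.1)).image
      (fun p => (Sum.inr (Sum.inl (blk p.1, p.2.1, p.2.2)), p.2.2, Sum.inl p.1))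
  let t3 : Finset (M × Fin k × M) :=
    ((Finset.univ : Finset (Q × Fin k)).filter (fun p => ∃ f ∈ F, (p.1, p.2, f) ∈ δ)).image
      (fun p => (Sum.inl p.1, p.2, Sum.inr (Sum.inr ())))
  have hc1 : t1.card ≤ k * k * N * (N / L + 1) := by
    refine Finset.card_image_le.trans (le_of_eq ?_)
    simp only [Finset.card_univ, Fintype.card_prod, Fintype.card_fin, hN]
    ring
  have hc2 : t2.card ≤ k * N * 2 ^ L := by
    refine Finset.card_image_le.trans ((Finset.card_filter_le _ _).trans (le_of_eq ?_))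
    simp only [Finset.card_univ, Fintype.card_prod, Fintype.card_fin, hN, Fintype.card_finset]
    ring
  have hc3 : t3.card ≤ k * N := by
    refine Finset.card_image_le.trans ((Finset.card_filter_le _ _).trans (le_of_eq ?_))
    simp only [Finset.card_univ, Fintype.card_prod, Fintype.card_fin, hN]
    ring
  have hD : ∀ p a r, (p, a, r) ∈ ((t1 ∪ t2 ∪ t3 : Finset (M × Fin k × M)) : Set (M × Fin k × M)) ↔
      Step δ F blk off p a r := by
    intro p a r
    rw [Finset.mem_coe, Finset.mem_union, Finset.mem_union]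
    have e1 : (p, a, r) ∈ t1 ↔ ∃ q J x, p = Sum.inl q ∧ r = Sum.inr (Sum.inl (J, T q a J x, x)) := by
      simp only [t1, Finset.mem_image, Finset.mem_univ, true_and, Prod.exists, Prod.mk.injEq]
      constructor
      · rintro ⟨q, a', J, x, h1, rfl, h3⟩
        exact ⟨q, J, x, h1.symm, h3.symm⟩
      · rintro ⟨q, J, x, h1, h3⟩
        exact ⟨q, a, J, x, h1.symm, rfl, h3.symm⟩
    have e2 : (p, a, r) ∈ t2 ↔ ∃ y U, off y ∈ U ∧ p = Sum.inr (Sum.inl (blk y, U, a)) ∧
        r = Sum.inl y := by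
      simp only [t2, Finset.mem_image, Finset.mem_filter, Finset.mem_univ, true_and, Prod.exists,
        Prod.mk.injEq]
      constructor
      · rintro ⟨y, U, x, h0, h1, rfl, h3⟩
        exact ⟨y, U, h0, h1.symm, h3.symm⟩
      · rintro ⟨y, U, h0, h1, h3⟩
        exact ⟨y, U, a, h0, h1.symm, rfl, h3.symm⟩
    have e3 : (p, a, r) ∈ t3 ↔ ∃ q, (∃ f ∈ F, (q, a, f) ∈ δ) ∧ p = Sum.inl q ∧
        r = Sum.inr (Sum.inr ()) := by
      simp only [t3, Finset.mem_image, Finset.mem_filter, Finset.mem_univ, true_and, Prod.exists,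
        Prod.mk.injEq]
      constructor
      · rintro ⟨q, a', h0, h1, rfl, h3⟩
        exact ⟨q, h0, h1.symm, h3.symm⟩
      · rintro ⟨q, h0, h1, h3⟩
        exact ⟨q, a, h0, h1.symm, rfl, h3.symm⟩
    rw [e1, e2, e3]
    constructor
    · rintro ((⟨q, J, x, rfl, rfl⟩ | ⟨y, U, h0, rfl, rfl⟩) | ⟨q, h0, rfl, rfl⟩)
      · exact hT q a J x
      · exact ⟨rfl, rfl, h0⟩
      · exact h0
    · intro h
      rcases p with q | ⟨J, U, x⟩ | u
      · rcases r with y | ⟨J, U, x⟩ | u
        · exact h.elim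
        · left; left
          refine ⟨q, J, x, rfl, ?_⟩
          have h1 : U = T q a J x := by
            apply Finset.coe_injective
            rw [hT]
            exact h
          rw [h1]
        · right
          exact ⟨q, h, rfl, rfl⟩
      · rcases r with y | r
        · obtain ⟨h1, h2, h3⟩ := h
          left; right
          simp only at h1 h2 h3
          subst h1
          subst h2
          exact ⟨y, U, h3, rfl, rfl⟩
        · exact h.elim
      · exact h.elim
  let G : Set M := {z | (∃ q ∈ F, z = Sum.inl q) ∨ z = Sum.inr (Sum.inr ())}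
  have hG1 : ∀ q, (Sum.inl q : M) ∈ G ↔ q ∈ F := by
    intro q
    constructor
    · rintro (⟨q', h1, h2⟩ | h2)
      · have h3 : q = q' := Sum.inl_injective h2
        rw [h3]
        exact h1
      · cases h2
    · intro h
      exact Or.inl ⟨q, h, rfl⟩
  have hG2 : ∀ m, (Sum.inr (Sum.inl m) : M) ∉ G := by
    rintro m (⟨q', h1, h2⟩ | h2)
    · cases h2
    · cases h2
  have hG3 : (Sum.inr (Sum.inr ()) : M) ∈ G := Or.inr rfl
  have hacc := accept δ F blk off hinj _ hD G hG1 hG2 hG3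
  have hfin := tc_le_of_type {w | ∃ q ∈ F, Run δ s w q} (Sum.inl s : M) G (t1 ∪ t2 ∪ t3) (by
    intro w
    exact (hacc w.length w le_rfl s).symm)
  refine ⟨hfin.1, hfin.2.trans ?_⟩
  refine (Finset.card_union_le _ _).trans ?_
  have := Finset.card_union_le t1 t2
  omega

end Pool.Agent.H560R3.TC
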