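import Mathlib

/-!
Nondeterministic automata, transition complexity, inverse morphisms: definitions and basic facts.
-/

set_option autoImplicit false

namespace Pool.Agent.H560R3.TC

/-- `Run δ p w q`: the word `w` leads from `p` to `q` along transitions in `δ`. -/
def Run {Q S : Type} (δ : Set (Q × S × Q)) : Q → List S → Q → Prop
  | p, [], q => p = q
  | p, a :: w, q => ∃ r, (p, a, r) ∈ δ ∧ Run δ r w q

/-- A nondeterministic finite automaton over the alphabet `S` with state set `Fin n`: a start state,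
a set of accepting states and a set of transitions (no empty transitions). -/
structure Nfa (S : Type) (n : ℕ) where
  start : Fin n
  acc : Finset (Fin n)
  tr : Finset (Fin n × S × Fin n)

/-- the language recognized by an automaton -/
def Nfa.lang {S : Type} {n : ℕ} (A : Nfa S n) : Set (List S) :=
  {w | ∃ q ∈ A.acc, Run (A.tr : Set (Fin n × S × Fin n)) A.start w q}

/-- `L` is regular -/
def IsReg {S : Type} (L : Set (List S)) : Prop := ∃ (n : ℕ) (A : Nfa S n), A.lang = L

/-- the transition complexity: the least number of transitions of an automaton for `L` -/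
noncomputable def tc {S : Type} (L : Set (List S)) : ℕ :=
  sInf {t | ∃ (n : ℕ) (A : Nfa S n), A.lang = L ∧ A.tr.card = t}

/-- the inverse image of `L` under the morphism of free monoids given by the images `h b` of the
letters `b` -/
def preim {Γ S : Type} (h : Γ → List S) (L : Set (List S)) : Set (List Γ) :=
  {w | w.flatMap h ∈ L}

/-- the transition complexities of the inverse images `h⁻¹(L)`, for all finite alphabets `S`, all
morphisms `h` from the words over `k` letters to the words over `S`, and all regular languages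
`L` over `S` of transition complexity exactly `m` -/
def vals (k m : ℕ) : Set ℕ :=
  {t | ∃ (S : Type) (_ : Finite S) (h : Fin k → List S) (L : Set (List S)),
    IsReg L ∧ tc L = m ∧ tc (preim h L) = t}

/-- the worst-case transition complexity of inverse morphism -/
noncomputable def g (k m : ℕ) : ℕ := sSup (vals k m)

section Run

variable {Q Q' S : Type}

theorem run_append (δ : Set (Q × S × Q)) (p : Q) (u v : List S) (q : Q) :
    Run δ p (u ++ v) q ↔ ∃ r, Run δ p u r ∧ Run δ r v q := by
  induction u generalizing p with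
  | nil => simp [Run]
  | cons a u ih =>
    simp only [List.cons_append, Run, ih]
    constructor
    · rintro ⟨r, h1, s, h2, h3⟩
      exact ⟨s, ⟨r, h1, h2⟩, h3⟩
    · rintro ⟨s, ⟨r, h1, h2⟩, h3⟩
      exact ⟨r, h1, s, h2, h3⟩

theorem run_mono {δ δ' : Set (Q × S × Q)} (h : δ ⊆ δ') {p q : Q} {w : List S}
    (hr : Run δ p w q) : Run δ' p w q := by
  induction w generalizing p with
  | nil => exact hr
  | cons a w ih =>
    obtain ⟨r, h1, h2⟩ := hr
    exact ⟨r, h h1, ih h2⟩

/-- Transport of runs along a map of states which is injective on the relevant states. -/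
theorem run_image (δ : Set (Q × S × Q)) (R : Set Q) (f : Q → Q') (hf : Set.InjOn f R)
    (h1 : ∀ p a q, (p, a, q) ∈ δ → p ∈ R ∧ q ∈ R) (p : Q) (hp : p ∈ R) (w : List S) (x : Q') :
    Run ((fun t : Q × S × Q => (f t.1, t.2.1, f t.2.2)) '' δ) (f p) w x ↔
      ∃ q ∈ R, f q = x ∧ Run δ p w q := by
  induction w generalizing p with
  | nil =>
    simp only [Run]
    constructor
    · intro h
      exact ⟨p, hp, h, rfl⟩
    · rintro ⟨q, _, h2, rfl⟩
      exact h2
  | cons a w ih =>
    simp only [Run]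
    constructor
    · rintro ⟨r, ⟨⟨p', a', r'⟩, h2, h3⟩, h4⟩
      simp only [Prod.mk.injEq] at h3
      obtain ⟨h5, rfl, rfl⟩ := h3
      obtain ⟨h6, h7⟩ := h1 _ _ _ h2
      have h8 : p' = p := hf h6 hp h5
      subst h8
      obtain ⟨q, h9, h10, h11⟩ := (ih r' h7).1 h4
      exact ⟨q, h9, h10, r', h2, h11⟩
    · rintro ⟨q, h2, h3, r, h4, h5⟩
      refine ⟨f r, ⟨(p, a, r), h4, rfl⟩, (ih r (h1 _ _ _ h4).2).2 ⟨q, h2, h3, h5⟩⟩

end Run

/-- An automaton with an arbitrary finite type of states. -/
theorem tc_le_of_type {Q S : Type} [Finite Q] (L : Set (List S)) (s : Q) (F : Set Q)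
    (δ : Finset (Q × S × Q)) (hL : ∀ w, w ∈ L ↔ ∃ q ∈ F, Run (δ : Set (Q × S × Q)) s w q) :
    IsReg L ∧ tc L ≤ δ.card := by
  classical
  obtain ⟨n, ⟨e⟩⟩ := Finite.exists_equiv_fin Q
  have : Fintype Q := Fintype.ofFinite Q
  set A : Nfa S n := ⟨e s, (Finset.univ.filter (fun x => e.symm x ∈ F)),
    δ.image (fun t : Q × S × Q => (e t.1, t.2.1, e t.2.2))⟩ with hA
  have h1 : A.lang = L := by
    ext w
    rw [hL w]
    simp only [Nfa.lang, Set.mem_ofPred_eq, hA, Finset.coe_image]
    have h2 := run_image (δ : Set (Q × S × Q)) Set.univ e (e.injective.injOn)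
      (fun _ _ _ _ => ⟨trivial, trivial⟩) s trivial w
    constructor
    · rintro ⟨x, hx, hr⟩
      obtain ⟨q, _, rfl, hq⟩ := (h2 x).1 hr
      refine ⟨q, ?_, hq⟩
      simpa using hx
    · rintro ⟨q, hq, hr⟩
      exact ⟨e q, by simpa using hq, (h2 (e q)).2 ⟨q, trivial, rfl, hr⟩⟩
  refine ⟨⟨n, A, h1⟩, ?_⟩
  refine le_trans (Nat.sInf_le ⟨n, A, h1, rfl⟩) ?_
  exact Finset.card_image_le

/-- An optimal automaton. -/
theorem exists_opt {S : Type} {L : Set (List S)} (h : IsReg L) :
    ∃ (n : ℕ) (A : Nfa S n), A.lang = L ∧ A.tr.card = tc L := by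
  obtain ⟨n, A, hA⟩ := h
  exact Nat.sInf_mem (s := {t | ∃ (n : ℕ) (A : Nfa S n), A.lang = L ∧ A.tr.card = t})
    ⟨A.tr.card, n, A, hA, rfl⟩

/-- An automaton with `t` transitions can be trimmed to `2 t + 1` states. -/
theorem trim {S : Type} {n : ℕ} (A : Nfa S n) (t : ℕ) (ht : A.tr.card ≤ t) :
    ∃ A' : Nfa S (2 * t + 1), A'.lang = A.lang ∧ A'.tr.card ≤ t := by
  classical
  set R : Finset (Fin n) := insert A.start (A.tr.image (fun x => x.1) ∪
    A.tr.image (fun x => x.2.2)) with hR
  have hRc : R.card ≤ 2 * t + 1 := by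
    refine (Finset.card_insert_le _ _).trans ?_
    have h1 := Finset.card_union_le (A.tr.image (fun x => x.1)) (A.tr.image (fun x => x.2.2))
    have h2 : (A.tr.image (fun x => x.1)).card ≤ A.tr.card := Finset.card_image_le
    have h3 : (A.tr.image (fun x => x.2.2)).card ≤ A.tr.card := Finset.card_image_le
    omega
  obtain ⟨f, hf⟩ : ∃ f : Fin n → Fin (2 * t + 1), Set.InjOn f (R : Set (Fin n)) := by
    obtain ⟨e⟩ : Nonempty (R ↪ Fin (2 * t + 1)) := by
      rw [Function.Embedding.nonempty_iff_card_le]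
      simpa using hRc
    refine ⟨fun x => if hx : x ∈ R then e ⟨x, hx⟩ else 0, ?_⟩
    intro x hx y hy hxy
    simp only [Finset.mem_coe] at hx hy
    simp only [dif_pos hx, dif_pos hy] at hxy
    exact congrArg Subtype.val (e.injective hxy)
  have h1 : ∀ p a q, (p, a, q) ∈ (A.tr : Set (Fin n × S × Fin n)) →
      p ∈ (R : Set (Fin n)) ∧ q ∈ (R : Set (Fin n)) := by
    intro p a q h
    have h' : (p, a, q) ∈ A.tr := h
    constructor
    · rw [Finset.mem_coe, hR, Finset.mem_insert, Finset.mem_union]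
      exact Or.inr (Or.inl (Finset.mem_image_of_mem (fun x : Fin n × S × Fin n => x.1) h'))
    · rw [Finset.mem_coe, hR, Finset.mem_insert, Finset.mem_union]
      exact Or.inr (Or.inr (Finset.mem_image_of_mem (fun x : Fin n × S × Fin n => x.2.2) h'))
  refine ⟨⟨f A.start, (A.acc ∩ R).image f,
    A.tr.image (fun x : Fin n × S × Fin n => (f x.1, x.2.1, f x.2.2))⟩, ?_,
    Finset.card_image_le.trans ht⟩
  ext w
  simp only [Nfa.lang, Set.mem_ofPred_eq, Finset.coe_image]
  have h2 := run_image (A.tr : Set (Fin n × S × Fin n)) (R : Set (Fin n)) f hf h1 A.start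
    (by rw [Finset.mem_coe, hR]; exact Finset.mem_insert_self _ _) w
  constructor
  · rintro ⟨x, hx, hr⟩
    obtain ⟨q', hq', hqx⟩ := Finset.mem_image.1 hx
    obtain ⟨q, hq, hqx', hr'⟩ := (h2 x).1 hr
    rw [Finset.mem_inter] at hq'
    have h3 : q = q' := hf hq hq'.2 (hqx'.trans hqx.symm)
    subst h3
    exact ⟨q, hq'.1, hr'⟩
  · rintro ⟨q, hq, hr⟩
    have hqR : q ∈ (R : Set (Fin n)) := by
      rcases List.eq_nil_or_concat w with rfl | ⟨u, a, rfl⟩
      · simp only [Run] at hr
        subst hr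
        rw [Finset.mem_coe, hR]
        exact Finset.mem_insert_self _ _
      · rw [List.concat_eq_append, run_append] at hr
        obtain ⟨r, _, r', h4, h5⟩ := hr
        simp only [Run] at h5
        subst h5
        exact (h1 _ _ _ h4).2
    exact ⟨f q, Finset.mem_image.2 ⟨q, Finset.mem_inter.2 ⟨hq, hqR⟩, rfl⟩,
      (h2 (f q)).2 ⟨q, hqR, rfl, hr⟩⟩

end Pool.Agent.H560R3.TC
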