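import Pool.Agent.H560R3.TC.Stm

/-!
# CMP: runs on the image of a word under a morphism
-/

set_option autoImplicit false

namespace Pool.Agent.H560R3.TC

theorem t_CMP : S_CMP := by
  intro k Q S h δ w
  induction w with
  | nil =>
    intro p q
    simp [Run]
  | cons a w ih =>
    intro p q
    rw [List.flatMap_cons, run_append]
    show (∃ r, (p, a, r) ∈ {t : Q × Fin k × Q | Run δ t.1 (h t.2.1) t.2.2} ∧
      Run {t : Q × Fin k × Q | Run δ t.1 (h t.2.1) t.2.2} r w q) ↔ _
    constructor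
    · rintro ⟨r, h1, h2⟩
      exact ⟨r, h1, (ih r q).1 h2⟩
    · rintro ⟨r, h1, h2⟩
      exact ⟨r, h1, (ih r q).2 h2⟩

end Pool.Agent.H560R3.TC
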