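import Pool.Agent.H560R3.TC.Basic

/-!
Statements of the parts of the proof (transition complexity of inverse morphism).
-/

set_option autoImplicit false

namespace Pool.Agent.H560R3.TC

/-- Block construction: an arbitrary relation automaton on `N` states over `k` letters has an
equivalent automaton with few transitions. -/
def S_BLK : Prop :=
  ∀ (k N L : ℕ), 1 ≤ L → ∀ (Q : Type) [Fintype Q], Fintype.card Q = N →
    ∀ (δ : Set (Q × Fin k × Q)) (s : Q) (F : Set Q),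
      IsReg {w | ∃ q ∈ F, Run δ s w q} ∧
      tc {w | ∃ q ∈ F, Run δ s w q} ≤ k * k * N * (N / L + 1) + k * N * 2 ^ L + k * N

/-- Runs on the image of a word under a morphism. -/
def S_CMP : Prop :=
  ∀ (k : ℕ) (Q S : Type) (h : Fin k → List S) (δ : Set (Q × S × Q)) (w : List (Fin k)) (p q : Q),
    Run {t : Q × Fin k × Q | Run δ t.1 (h t.2.1) t.2.2} p w q ↔ Run δ p (w.flatMap h) q

/-- the upper bound before the choice of the block length -/
def S_UP0 : Prop :=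
  ∀ (k m L t : ℕ), 1 ≤ L → t ∈ vals k m →
    t ≤ k * k * (2 * m + 1) * ((2 * m + 1) / L + 1) + k * (2 * m + 1) * 2 ^ L + k * (2 * m + 1)

/-- the upper bound -/
def S_UP : Prop :=
  ∀ k : ℕ, ∃ C : ℝ, ∀ m : ℕ, 2 ≤ m → ∀ t ∈ vals k m, (t : ℝ) ≤ C * ((m : ℝ) ^ 2 / Real.log m)

/-- The gadget: one language of transition complexity at most `9 n + 1` has inverse images
encoding all `n × n` matrices. -/
def S_GAD : Prop :=
  ∀ n k : ℕ, 1 ≤ n → 2 ≤ k → ∃ (S : Type) (_ : Finite S) (L : Set (List S)),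
    IsReg L ∧ tc L ≤ 9 * n + 1 ∧ ∃ u : Fin n → Fin n → List (Fin k),
      ∀ K : Fin n → Fin n → Bool, ∃ h : Fin k → List S,
        ∀ i j, u i j ∈ preim h L ↔ K i j = true

/-- Counting languages of small transition complexity. -/
def S_CNT : Prop :=
  ∀ (k t : ℕ) (ι : Type) [Fintype ι] (Lg : ι → Set (List (Fin k))), Function.Injective Lg →
    (∀ i, IsReg (Lg i) ∧ tc (Lg i) ≤ t) →
    Fintype.card ι ≤ (2 * t + 1) * ((2 * t + 1) ^ 2 * k + 1) ^ t * 2 ^ (2 * t + 1)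

/-- Padding to an exact transition complexity without changing the inverse images. -/
def S_PAD : Prop :=
  ∀ (S : Type) [Finite S] (L : Set (List S)), IsReg L → ∀ m : ℕ, 2 * tc L + 1 ≤ m →
    ∃ (S' : Type) (_ : Finite S') (e : S → S') (L' : Set (List S')),
      IsReg L' ∧ tc L' = m ∧
        ∀ (k : ℕ) (h : Fin k → List S), preim (fun b => (h b).map e) L' = preim h L

/-- all the sets are nonempty -/
def S_NE : Prop := ∀ k m : ℕ, (vals k m).Nonempty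

/-- the lower bound -/
def S_LOW : Prop :=
  ∀ k : ℕ, 2 ≤ k → ∃ c : ℝ, 0 < c ∧ ∃ M : ℕ, ∀ m : ℕ, M ≤ m →
    ∃ t ∈ vals k m, c * ((m : ℝ) ^ 2 / Real.log m) ≤ (t : ℝ)

/-- arithmetic of the lower bound -/
def S_ARL : Prop :=
  ∀ k : ℕ, ∃ c : ℝ, 0 < c ∧ ∃ M : ℕ, ∀ m : ℕ, M ≤ m → ∀ n : ℕ, n = (m - 3) / 18 → ∀ t : ℕ,
    2 ^ (n * n) ≤ (2 * t + 1) * ((2 * t + 1) ^ 2 * k + 1) ^ t * 2 ^ (2 * t + 1) →
    c * ((m : ℝ) ^ 2 / Real.log m) ≤ (t : ℝ)

/-- arithmetic of the upper bound -/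
def S_ARU : Prop :=
  ∀ k : ℕ, ∃ C : ℝ, ∀ m : ℕ, 2 ≤ m → ∃ L : ℕ, 1 ≤ L ∧
    ((k * k * (2 * m + 1) * ((2 * m + 1) / L + 1) + k * (2 * m + 1) * 2 ^ L + k * (2 * m + 1) : ℕ)
      : ℝ) ≤ C * ((m : ℝ) ^ 2 / Real.log m)

end Pool.Agent.H560R3.TC
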