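import Mathlib
import Pool.Agent.H560R3.TC.Stm

/-!
Counting languages of small transition complexity.
-/

set_option autoImplicit false

namespace Pool.Agent.H560R3.TC

/-- a finite set with at most `t` elements can be enumerated with repetitions and gaps -/
theorem cnt_enum {X : Type} (s : Finset X) (t : ℕ) (h : s.card ≤ t) :
    ∃ e : Fin t → Option X, ∀ x, x ∈ s ↔ ∃ j, e j = some x := by
  refine ⟨fun j => s.toList[(j : ℕ)]?, fun x => ?_⟩
  rw [← Finset.mem_toList, List.mem_iff_getElem?]
  constructor
  · rintro ⟨j, hj⟩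
    have h1 : j < s.toList.length := by
      by_contra h2
      rw [List.getElem?_eq_none (by omega)] at hj
      exact absurd hj (by simp)
    rw [Finset.length_toList] at h1
    exact ⟨⟨j, by omega⟩, hj⟩
  · rintro ⟨j, hj⟩
    exact ⟨j, hj⟩

theorem t_CNT : S_CNT := by
  classical
  intro k t ι _ Lg hinj hreg
  have h1 : ∀ i, ∃ A : Nfa (Fin k) (2 * t + 1), A.lang = Lg i ∧ A.tr.card ≤ t := by
    intro i
    obtain ⟨n, A, hA, hc⟩ := exists_opt (hreg i).1
    obtain ⟨A', hA', hc'⟩ := trim A t (hc.le.trans (hreg i).2)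
    exact ⟨A', hA'.trans hA, hc'⟩
  choose A hA hc using h1
  have h2 : ∀ i, ∃ e : Fin t → Option (Fin (2 * t + 1) × Fin k × Fin (2 * t + 1)),
      ∀ x, x ∈ (A i).tr ↔ ∃ j, e j = some x := fun i => cnt_enum _ t (hc i)
  choose e he using h2
  have h3 : Function.Injective (fun i => ((A i).start, e i, (A i).acc)) := by
    intro i j hij
    simp only [Prod.mk.injEq] at hij
    obtain ⟨e1, e2, e3⟩ := hij
    have e4 : (A i).tr = (A j).tr := by
      ext x
      rw [he i, he j, e2]
    apply hinj
    rw [← hA i, ← hA j]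
    unfold Nfa.lang
    rw [e1, e3, e4]
  have h4 := Fintype.card_le_of_injective _ h3
  simp only [Fintype.card_prod, Fintype.card_fin, Fintype.card_fun, Fintype.card_option,
    Fintype.card_finset] at h4
  have h5 : (2 * t + 1) * (k * (2 * t + 1)) = (2 * t + 1) ^ 2 * k := by ring
  rw [h5, ← mul_assoc] at h4
  exact h4

end Pool.Agent.H560R3.TC
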