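import Pool.Agent.H560R3.TC.Stm

/-!
Task GAD: one language whose inverse images encode all square matrices.
-/

set_option autoImplicit false

namespace Pool.Agent.H560R3.TC

namespace GAD

/-- the letters of the gadget -/
inductive Lt : Type
  | a | r | s | t | f
  deriving DecidableEq

instance : Fintype Lt := ⟨{Lt.a, Lt.r, Lt.s, Lt.t, Lt.f}, by intro x; cases x <;> simp⟩

/-- states: `(false, i)` is `P_i`, `(true, j)` is `R_j` -/
abbrev St (n : ℕ) : Type := Bool × ZMod n

/-- the transitions -/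
def del (n : ℕ) [NeZero n] : Finset (St n × Lt × St n) :=
  insert ((false, 0), Lt.t, (true, 0))
    (Finset.univ.image (fun i : ZMod n => (((false, i), Lt.a, (false, i + 1)) : St n × Lt × St n)) ∪
    (Finset.univ.image (fun i : ZMod n => (((true, i), Lt.a, (true, i - 1)) : St n × Lt × St n)) ∪
    (Finset.univ.image (fun i : ZMod n => (((false, i), Lt.r, (false, i + 1)) : St n × Lt × St n)) ∪
    (Finset.univ.image (fun i : ZMod n => (((true, i), Lt.r, (true, i)) : St n × Lt × St n)) ∪
    (Finset.univ.image (fun i : ZMod n => (((false, i), Lt.s, (false, i)) : St n × Lt × St n)) ∪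
    (Finset.univ.image (fun i : ZMod n => (((true, i), Lt.s, (true, i + 1)) : St n × Lt × St n)) ∪
    (Finset.univ.image (fun i : ZMod n => (((false, i), Lt.t, (false, i)) : St n × Lt × St n)) ∪
    (Finset.univ.image (fun i : ZMod n => (((true, i), Lt.t, (true, i)) : St n × Lt × St n)) ∪
    Finset.univ.image (fun i : ZMod n => (((true, i), Lt.f, (true, i)) : St n × Lt × St n))))))))))

theorem card_im {n : ℕ} [NeZero n] (f : ZMod n → St n × Lt × St n) :
    (Finset.univ.image f).card ≤ n := by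
  refine Finset.card_image_le.trans ?_
  rw [Finset.card_univ, ZMod.card]

theorem card_del (n : ℕ) [NeZero n] : (del n).card ≤ 9 * n + 1 := by
  unfold del
  refine (Finset.card_insert_le _ _).trans (Nat.add_le_add_right ?_ 1)
  have e : 9 * n = n + (n + (n + (n + (n + (n + (n + (n + n))))))) := by ring
  rw [e]
  refine (Finset.card_union_le _ _).trans (Nat.add_le_add (card_im _) ?_)
  refine (Finset.card_union_le _ _).trans (Nat.add_le_add (card_im _) ?_)
  refine (Finset.card_union_le _ _).trans (Nat.add_le_add (card_im _) ?_)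
  refine (Finset.card_union_le _ _).trans (Nat.add_le_add (card_im _) ?_)
  refine (Finset.card_union_le _ _).trans (Nat.add_le_add (card_im _) ?_)
  refine (Finset.card_union_le _ _).trans (Nat.add_le_add (card_im _) ?_)
  refine (Finset.card_union_le _ _).trans (Nat.add_le_add (card_im _) ?_)
  exact (Finset.card_union_le _ _).trans (Nat.add_le_add (card_im _) (card_im _))

section

variable {n : ℕ} [NeZero n]

/-- runs in the gadget -/
abbrev R (p : St n) (w : List Lt) (q : St n) : Prop := Run (del n : Set (St n × Lt × St n)) p w q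

theorem run_a0 (i : ZMod n) (q : St n) : R (false, i) [Lt.a] q ↔ q = (false, i + 1) := by
  simp [Run, del, eq_comm]

theorem run_a1 (i : ZMod n) (q : St n) : R (true, i) [Lt.a] q ↔ q = (true, i - 1) := by
  simp [Run, del, eq_comm]

theorem run_r0 (i : ZMod n) (q : St n) : R (false, i) [Lt.r] q ↔ q = (false, i + 1) := by
  simp [Run, del, eq_comm]

theorem run_r1 (i : ZMod n) (q : St n) : R (true, i) [Lt.r] q ↔ q = (true, i) := by
  simp [Run, del, eq_comm]

theorem run_s0 (i : ZMod n) (q : St n) : R (false, i) [Lt.s] q ↔ q = (false, i) := by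
  simp [Run, del, eq_comm]

theorem run_s1 (i : ZMod n) (q : St n) : R (true, i) [Lt.s] q ↔ q = (true, i + 1) := by
  simp [Run, del, eq_comm]

theorem run_t0 (i : ZMod n) (q : St n) :
    R (false, i) [Lt.t] q ↔ q = (false, i) ∨ (q = (true, 0) ∧ i = 0) := by
  simp only [Run, del, Finset.coe_insert, Finset.coe_union, Finset.coe_image, Finset.coe_univ,
    Set.image_univ, Set.mem_insert_iff, Set.mem_union, Set.mem_range, Prod.mk.injEq, reduceCtorEq,
    false_and, and_false, exists_false, false_or, or_false, true_and]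
  constructor
  · rintro ⟨r, h | ⟨j, h1, h2⟩, rfl⟩
    · exact Or.inr ⟨h.2, h.1⟩
    · subst h1
      exact Or.inl h2.symm
  · rintro (rfl | ⟨rfl, rfl⟩)
    · exact ⟨_, Or.inr ⟨i, rfl, rfl⟩, rfl⟩
    · exact ⟨_, Or.inl ⟨rfl, rfl⟩, rfl⟩

theorem run_t1 (i : ZMod n) (q : St n) : R (true, i) [Lt.t] q ↔ q = (true, i) := by
  simp [Run, del, eq_comm]

theorem run_f0 (i : ZMod n) (q : St n) : ¬ R (false, i) [Lt.f] q := by
  simp [Run, del]

theorem run_f1 (i : ZMod n) (q : St n) : R (true, i) [Lt.f] q ↔ q = (true, i) := by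
  simp [Run, del, eq_comm]

theorem run_app (p : St n) (u v : List Lt) (q : St n) :
    R p (u ++ v) q ↔ ∃ x, R p u x ∧ R x v q := run_append _ p u v q

theorem run_nil (p q : St n) : R p [] q ↔ q = p := by
  show p = q ↔ q = p
  exact eq_comm

/-- the inner word -/
def inner (κ : ZMod n → Bool) : ℕ → List Lt
  | 0 => []
  | t + 1 => inner κ t ++ ((if κ (-(t : ZMod n)) = true then [Lt.t] else []) ++ [Lt.r])

theorem step1 (κ : ZMod n → Bool) (t : ℕ) (j : ZMod n) (x : St n) :
    R (true, j) ((if κ (-(t : ZMod n)) = true then [Lt.t] else []) ++ [Lt.r]) x ↔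
      x = (true, j) := by
  rw [run_app]
  constructor
  · rintro ⟨y, h1, h2⟩
    have hy : y = (true, j) := by
      split_ifs at h1
      · exact (run_t1 j y).1 h1
      · exact (run_nil _ _).1 h1
    subst hy
    exact (run_r1 j x).1 h2
  · rintro rfl
    refine ⟨(true, j), ?_, (run_r1 j _).2 rfl⟩
    split_ifs
    · exact (run_t1 j _).2 rfl
    · exact (run_nil _ _).2 rfl

theorem step0 (κ : ZMod n → Bool) (t : ℕ) (i : ZMod n) (x : St n) :
    R (false, i) ((if κ (-(t : ZMod n)) = true then [Lt.t] else []) ++ [Lt.r]) x ↔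
      x = (false, i + 1) ∨ (x = (true, 0) ∧ κ (-(t : ZMod n)) = true ∧ i = 0) := by
  rw [run_app]
  constructor
  · rintro ⟨y, h1, h2⟩
    split_ifs at h1 with hk
    · rcases (run_t0 i y).1 h1 with rfl | ⟨rfl, h0⟩
      · exact Or.inl ((run_r0 i x).1 h2)
      · exact Or.inr ⟨(run_r1 0 x).1 h2, hk, h0⟩
    · have hy := (run_nil _ _).1 h1
      subst hy
      exact Or.inl ((run_r0 i x).1 h2)
  · rintro (rfl | ⟨rfl, hk, rfl⟩)
    · refine ⟨(false, i), ?_, (run_r0 i _).2 rfl⟩
      split_ifs
      · exact (run_t0 i _).2 (Or.inl rfl)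
      · exact (run_nil _ _).2 rfl
    · refine ⟨(true, 0), ?_, (run_r1 0 _).2 rfl⟩
      rw [if_pos hk]
      exact (run_t0 0 _).2 (Or.inr ⟨rfl, rfl⟩)

theorem inner1 (κ : ZMod n → Bool) (t : ℕ) (j : ZMod n) (x : St n) :
    R (true, j) (inner κ t) x ↔ x = (true, j) := by
  induction t generalizing x with
  | zero => exact run_nil _ _
  | succ t ih =>
    show R (true, j) (inner κ t ++ _) x ↔ _
    rw [run_app]
    constructor
    · rintro ⟨y, h1, h2⟩
      rw [ih] at h1
      subst h1
      exact (step1 κ t j x).1 h2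
    · rintro rfl
      exact ⟨(true, j), (ih _).2 rfl, (step1 κ t j _).2 rfl⟩

theorem inner0 (κ : ZMod n → Bool) (t : ℕ) (i : ZMod n) (x : St n) :
    R (false, i) (inner κ t) x ↔ x = (false, i + t) ∨
      (x = (true, 0) ∧ ∃ t' < t, κ (-(t' : ZMod n)) = true ∧ i + t' = 0) := by
  induction t generalizing x with
  | zero =>
    show R (false, i) [] x ↔ _
    rw [run_nil]
    simp
  | succ t ih =>
    show R (false, i) (inner κ t ++ _) x ↔ _
    rw [run_app]
    constructor
    · rintro ⟨y, h1, h2⟩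
      rcases (ih y).1 h1 with rfl | ⟨rfl, t', ht', hk, h0⟩
      · rcases (step0 κ t _ x).1 h2 with rfl | ⟨rfl, hk, h0⟩
        · left
          push_cast
          rw [add_assoc]
        · exact Or.inr ⟨rfl, t, by omega, hk, h0⟩
      · exact Or.inr ⟨(step1 κ t 0 x).1 h2, t', by omega, hk, h0⟩
    · rintro (rfl | ⟨rfl, t', ht', hk, h0⟩)
      · refine ⟨(false, i + t), (ih _).2 (Or.inl rfl), (step0 κ t _ _).2 (Or.inl ?_)⟩
        push_cast
        rw [add_assoc]
      · rcases Nat.lt_succ_iff_lt_or_eq.1 ht' with h | h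
        · exact ⟨(true, 0), (ih _).2 (Or.inr ⟨rfl, t', h, hk, h0⟩), (step1 κ t 0 _).2 rfl⟩
        · subst h
          exact ⟨(false, i + t'), (ih _).2 (Or.inl rfl),
            (step0 κ t' _ _).2 (Or.inr ⟨rfl, hk, h0⟩)⟩

theorem innern (κ : ZMod n → Bool) (i : ZMod n) (x : St n) :
    R (false, i) (inner κ n) x ↔ x = (false, i) ∨ (x = (true, 0) ∧ κ i = true) := by
  rw [inner0]
  have e : i + (n : ZMod n) = i := by rw [ZMod.natCast_self, add_zero]
  rw [e]
  constructor
  · rintro (h | ⟨h, t', _, hk, h0⟩)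
    · exact Or.inl h
    · refine Or.inr ⟨h, ?_⟩
      have : i = -(t' : ZMod n) := eq_neg_of_add_eq_zero_left h0
      rw [this]
      exact hk
  · rintro (h | ⟨h, hk⟩)
    · exact Or.inl h
    · refine Or.inr ⟨h, (-i).val, ZMod.val_lt _, ?_, ?_⟩
      · rw [ZMod.natCast_zmod_val, neg_neg]
        exact hk
      · rw [ZMod.natCast_zmod_val, add_neg_cancel]

/-- the outer word -/
def outer (K : ZMod n → ZMod n → Bool) : ℕ → List Lt
  | 0 => []
  | s + 1 => outer K s ++ (inner (fun i => K i (-(s : ZMod n))) n ++ [Lt.s])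

theorem block1 (κ : ZMod n → Bool) (j : ZMod n) (x : St n) :
    R (true, j) (inner κ n ++ [Lt.s]) x ↔ x = (true, j + 1) := by
  rw [run_app]
  constructor
  · rintro ⟨y, h1, h2⟩
    rw [inner1] at h1
    subst h1
    exact (run_s1 j x).1 h2
  · rintro rfl
    exact ⟨(true, j), (inner1 κ n j _).2 rfl, (run_s1 j _).2 rfl⟩

theorem block0 (κ : ZMod n → Bool) (i : ZMod n) (x : St n) :
    R (false, i) (inner κ n ++ [Lt.s]) x ↔ x = (false, i) ∨ (x = (true, 1) ∧ κ i = true) := by
  rw [run_app]
  constructor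
  · rintro ⟨y, h1, h2⟩
    rcases (innern κ i y).1 h1 with rfl | ⟨rfl, hk⟩
    · exact Or.inl ((run_s0 i x).1 h2)
    · refine Or.inr ⟨?_, hk⟩
      rw [(run_s1 0 x).1 h2, zero_add]
  · rintro (rfl | ⟨rfl, hk⟩)
    · exact ⟨(false, i), (innern κ i _).2 (Or.inl rfl), (run_s0 i _).2 rfl⟩
    · refine ⟨(true, 0), (innern κ i _).2 (Or.inr ⟨rfl, hk⟩), (run_s1 0 _).2 ?_⟩
      rw [zero_add]

theorem outer0 (K : ZMod n → ZMod n → Bool) (s : ℕ) (i : ZMod n) (x : St n) :
    R (false, i) (outer K s) x ↔ x = (false, i) ∨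
      ∃ s' < s, K i (-(s' : ZMod n)) = true ∧ x = (true, (s : ZMod n) - s') := by
  induction s generalizing x with
  | zero =>
    show R (false, i) [] x ↔ _
    rw [run_nil]
    simp
  | succ s ih =>
    show R (false, i) (outer K s ++ _) x ↔ _
    rw [run_app]
    constructor
    · rintro ⟨y, h1, h2⟩
      rcases (ih y).1 h1 with rfl | ⟨s', hs', hk, rfl⟩
      · rcases (block0 _ i x).1 h2 with h | ⟨rfl, hk⟩
        · exact Or.inl h
        · refine Or.inr ⟨s, by omega, hk, ?_⟩
          push_cast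
          rw [add_sub_cancel_left]
      · refine Or.inr ⟨s', by omega, hk, ?_⟩
        rw [(block1 _ _ x).1 h2]
        push_cast
        congr 1
        ring
    · rintro (rfl | ⟨s', hs', hk, rfl⟩)
      · exact ⟨(false, i), (ih _).2 (Or.inl rfl), (block0 _ i _).2 (Or.inl rfl)⟩
      · rcases Nat.lt_succ_iff_lt_or_eq.1 hs' with h | h
        · refine ⟨(true, (s : ZMod n) - s'), (ih _).2 (Or.inr ⟨s', h, hk, rfl⟩),
            (block1 _ _ _).2 ?_⟩
          push_cast
          congr 1
          ring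
        · subst h
          refine ⟨(false, i), (ih _).2 (Or.inl rfl), (block0 _ i _).2 (Or.inr ⟨?_, hk⟩)⟩
          push_cast
          rw [add_sub_cancel_left]

/-- the word for a matrix -/
def wK (K : ZMod n → ZMod n → Bool) : List Lt := outer K n ++ [Lt.f]

theorem run_wK (K : ZMod n → ZMod n → Bool) (i : ZMod n) (x : St n) :
    R (false, i) (wK K) x ↔ ∃ j, K i j = true ∧ x = (true, j) := by
  unfold wK
  rw [run_app]
  constructor
  · rintro ⟨y, h1, h2⟩
    rcases (outer0 K n i y).1 h1 with rfl | ⟨s', _, hk, rfl⟩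
    · exact absurd h2 (run_f0 i x)
    · refine ⟨-(s' : ZMod n), hk, ?_⟩
      rw [(run_f1 _ x).1 h2, ZMod.natCast_self, zero_sub]
  · rintro ⟨j, hk, rfl⟩
    refine ⟨(true, j), (outer0 K n i _).2 (Or.inr ⟨(-j).val, ZMod.val_lt _, ?_, ?_⟩),
      (run_f1 j _).2 rfl⟩
    · rw [ZMod.natCast_zmod_val, neg_neg]
      exact hk
    · rw [ZMod.natCast_zmod_val, ZMod.natCast_self, zero_sub, neg_neg]

theorem run_as0 (m : ℕ) (i : ZMod n) (x : St n) :
    R (false, i) (List.replicate m Lt.a) x ↔ x = (false, i + m) := by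
  induction m generalizing x with
  | zero =>
    show R (false, i) [] x ↔ _
    rw [run_nil]
    simp
  | succ m ih =>
    rw [List.replicate_succ', run_app]
    constructor
    · rintro ⟨y, h1, h2⟩
      rw [ih] at h1
      subst h1
      rw [(run_a0 _ x).1 h2]
      push_cast
      rw [add_assoc]
    · rintro rfl
      refine ⟨(false, i + m), (ih _).2 rfl, (run_a0 _ _).2 ?_⟩
      push_cast
      rw [add_assoc]

theorem run_as1 (m : ℕ) (i : ZMod n) (x : St n) :
    R (true, i) (List.replicate m Lt.a) x ↔ x = (true, i - m) := by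
  induction m generalizing x with
  | zero =>
    show R (true, i) [] x ↔ _
    rw [run_nil]
    simp
  | succ m ih =>
    rw [List.replicate_succ', run_app]
    constructor
    · rintro ⟨y, h1, h2⟩
      rw [ih] at h1
      subst h1
      rw [(run_a1 _ x).1 h2]
      push_cast
      rw [sub_sub]
    · rintro rfl
      refine ⟨(true, i - m), (ih _).2 rfl, (run_a1 _ _).2 ?_⟩
      push_cast
      rw [sub_sub]

theorem run_all (K : ZMod n → ZMod n → Bool) (i j : ℕ) :
    R ((false, 0) : St n) (List.replicate i Lt.a ++ (wK K ++ List.replicate j Lt.a)) (true, 0) ↔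
      K (i : ZMod n) (j : ZMod n) = true := by
  rw [run_app]
  constructor
  · rintro ⟨y, h1, h2⟩
    rw [run_as0, zero_add] at h1
    subst h1
    rw [run_app] at h2
    obtain ⟨z, h3, h4⟩ := h2
    obtain ⟨j', hk, rfl⟩ := (run_wK K _ z).1 h3
    have h5 := (run_as1 j j' _).1 h4
    rw [Prod.mk.injEq] at h5
    have h6 : j' = (j : ZMod n) := (sub_eq_zero.1 h5.2.symm)
    rw [← h6]
    exact hk
  · intro hk
    refine ⟨(false, (i : ZMod n)), (run_as0 i 0 _).2 (by rw [zero_add]), ?_⟩
    rw [run_app]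
    refine ⟨(true, (j : ZMod n)), (run_wK K _ _).2 ⟨_, hk, rfl⟩, (run_as1 j _ _).2 ?_⟩
    rw [sub_self]

end

end GAD

open GAD in
theorem t_GAD : S_GAD := by
  intro n k hn hk
  have : NeZero n := ⟨by omega⟩
  have hL := tc_le_of_type (Q := St n) (S := Lt)
    {w | ∃ q ∈ ({(true, 0)} : Set (St n)), Run (del n : Set (St n × Lt × St n)) (false, 0) w q}
    (false, 0) {(true, 0)} (del n) (fun w => Iff.rfl)
  refine ⟨Lt, inferInstance, _, hL.1, hL.2.trans (card_del n),
    fun i j => List.replicate i ⟨0, by omega⟩ ++ (⟨1, by omega⟩ :: List.replicate j ⟨0, by omega⟩),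
    fun K => ⟨fun b => if b.val = 0 then [Lt.a] else if b.val = 1 then
      wK (n := n) (fun x y => K ⟨x.val, ZMod.val_lt x⟩ ⟨y.val, ZMod.val_lt y⟩) else [], ?_⟩⟩
  intro i j
  have hr : ∀ (m : ℕ) (h : Fin k → List Lt) (c : Fin k), h c = [Lt.a] →
      (List.replicate m c).flatMap h = List.replicate m Lt.a := by
    intro m h c hc
    induction m with
    | zero => rfl
    | succ m ih => rw [List.replicate_succ, List.flatMap_cons, ih, hc, List.replicate_succ]; rfl
  have hK := run_all (n := n) (fun x y => K ⟨x.val, ZMod.val_lt x⟩ ⟨y.val, ZMod.val_lt y⟩) i j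
  simp only [ZMod.val_natCast_of_lt i.2, ZMod.val_natCast_of_lt j.2, Fin.eta] at hK
  rw [← hK]
  show _ ∈ {w | ∃ q ∈ ({(true, 0)} : Set (St n)),
    Run (del n : Set (St n × Lt × St n)) (false, 0) w q} ↔ _
  rw [List.flatMap_append, List.flatMap_cons, hr _ _ _ (if_pos rfl), hr _ _ _ (if_pos rfl)]
  constructor
  · rintro ⟨q, hq, h⟩
    rw [Set.mem_singleton_iff] at hq
    subst hq
    exact h
  · intro h
    exact ⟨_, rfl, h⟩

end Pool.Agent.H560R3.TC
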