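import Pool.Agent.H560R3.TC.Stm

/-!
The lower bound.
-/

set_option autoImplicit false

namespace Pool.Agent.H560R3.TC

/-- Inverse images of regular languages are regular. -/
theorem low_reg (hB : S_BLK) (hC : S_CMP) {k : ℕ} {S : Type} (h : Fin k → List S)
    {L : Set (List S)} (hL : IsReg L) : IsReg (preim h L) := by
  obtain ⟨N, A, hA⟩ := hL
  have h1 := (hB k N 1 le_rfl (Fin N) (Fintype.card_fin N)
    {t : Fin N × Fin k × Fin N | Run (A.tr : Set (Fin N × S × Fin N)) t.1 (h t.2.1) t.2.2}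
    A.start (A.acc : Set (Fin N))).1
  have h2 : {w : List (Fin k) | ∃ q ∈ (A.acc : Set (Fin N)),
      Run {t : Fin N × Fin k × Fin N |
        Run (A.tr : Set (Fin N × S × Fin N)) t.1 (h t.2.1) t.2.2} A.start w q} = preim h L := by
    ext w
    rw [← hA]
    simp only [preim, Nfa.lang, Set.mem_ofPred_eq]
    constructor
    · rintro ⟨q, hq, hr⟩
      exact ⟨q, hq, (hC k (Fin N) S h _ w A.start q).1 hr⟩
    · rintro ⟨q, hq, hr⟩
      exact ⟨q, hq, (hC k (Fin N) S h _ w A.start q).2 hr⟩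
  rw [← h2]
  exact h1

/-- task LOW -/
theorem t_LOW (hG : S_GAD) (hCnt : S_CNT) (hP : S_PAD) (hA : S_ARL) (hB : S_BLK) (hC : S_CMP) :
    S_LOW := by
  intro k hk
  obtain ⟨c, hc, M, hM⟩ := hA k
  refine ⟨c, hc, max M 100, ?_⟩
  intro m hm
  have hm1 : M ≤ m := (le_max_left _ _).trans hm
  have hm2 : 100 ≤ m := (le_max_right _ _).trans hm
  obtain ⟨n, hn⟩ : ∃ n : ℕ, n = (m - 3) / 18 := ⟨_, rfl⟩
  have hn1 : 1 ≤ n := by omega
  obtain ⟨S, hS, L, hLreg, hLtc, u, hu⟩ := hG n k hn1 hk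
  have hpad : 2 * tc L + 1 ≤ m := by omega
  choose h hh using hu
  obtain ⟨S', hS', e, L', hL'reg, hL'tc, hL'pre⟩ := hP S L hLreg m hpad
  have hinj : Function.Injective (fun K : Fin n → Fin n → Bool => preim (h K) L) := by
    intro K K' hKK
    have hKK' : preim (h K) L = preim (h K') L := hKK
    funext i j
    have h1 := hh K i j
    have h2 := hh K' i j
    rw [hKK'] at h1
    have h3 : K i j = true ↔ K' i j = true := h1.symm.trans h2
    rcases hx : K i j with _ | _ <;> rcases hy : K' i j with _ | _ <;> simp_all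
  obtain ⟨K0, _, hK0⟩ := Finset.exists_max_image (Finset.univ : Finset (Fin n → Fin n → Bool))
    (fun K => tc (preim (h K) L)) Finset.univ_nonempty
  refine ⟨tc (preim (h K0) L), ?_, ?_⟩
  · refine ⟨S', hS', fun b => (h K0 b).map e, L', hL'reg, hL'tc, ?_⟩
    rw [hL'pre]
  · apply hM m hm1 n hn
    have h1 := hCnt k (tc (preim (h K0) L)) (Fin n → Fin n → Bool)
      (fun K => preim (h K) L) hinj
      (fun K => ⟨low_reg hB hC (h K) hLreg, hK0 K (Finset.mem_univ K)⟩)
    have h2 : Fintype.card (Fin n → Fin n → Bool) = 2 ^ (n * n) := by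
      simp [pow_mul]
    rw [h2] at h1
    exact h1

end Pool.Agent.H560R3.TC
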