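import Pool.Agent.H560R3.TC.Stm

set_option autoImplicit false

namespace Pool.Agent.H560R3.TC

theorem t_NE (h1 : S_PAD) : S_NE := by
  intro k m
  have h0 := tc_le_of_type (Q := Unit) (S := Unit) (∅ : Set (List Unit)) () ∅ ∅ (by
    intro w; simp)
  have htc : tc (∅ : Set (List Unit)) = 0 := by
    have := h0.2
    simpa using this
  rcases Nat.eq_zero_or_pos m with hm | hm
  · exact ⟨_, Unit, inferInstance, fun _ => [], ∅, h0.1, by rw [htc, hm], rfl⟩
  · obtain ⟨S', hS', e, L', hL', hm', -⟩ := h1 Unit ∅ h0.1 m (by rw [htc]; omega)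
    exact ⟨_, S', hS', fun _ => [], L', hL', hm', rfl⟩

end Pool.Agent.H560R3.TC
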