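import Pool.Agent.H560R3.TC.Stm

/-!
PAD: padding to an exact transition complexity.
-/

set_option autoImplicit false

namespace Pool.Agent.H560R3.TC

namespace PAD

variable {S : Type} {m : ℕ}

/-- the padded languages -/
def LL (L : Set (List S)) (m j : ℕ) : Set (List (S ⊕ Fin m)) :=
  {w | (∃ v ∈ L, w = v.map Sum.inl) ∨ ∃ i : Fin m, i.val < j ∧ w = [Sum.inr i]}

theorem map_ne (x : List S) (i : Fin m) : x.map (Sum.inl : S → S ⊕ Fin m) ≠ [Sum.inr i] := by
  intro h
  cases x with
  | nil => simp at h
  | cons a x => simp at h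

theorem map_inl_inj : Function.Injective (List.map (Sum.inl : S → S ⊕ Fin m)) :=
  List.map_injective_iff.2 Sum.inl_injective

theorem preim_LL (L : Set (List S)) (j k : ℕ) (h : Fin k → List S) :
    preim (fun b => (h b).map (Sum.inl : S → S ⊕ Fin m)) (LL L m j) = preim h L := by
  ext w
  have e : w.flatMap (fun b => (h b).map (Sum.inl : S → S ⊕ Fin m)) =
      (w.flatMap h).map Sum.inl := by
    rw [List.map_flatMap]
  show w.flatMap (fun b => (h b).map (Sum.inl : S → S ⊕ Fin m)) ∈ LL L m j ↔ w.flatMap h ∈ L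
  rw [e]
  constructor
  · rintro (⟨v, hv, hw⟩ | ⟨i, _, hw⟩)
    · rw [map_inl_inj hw]
      exact hv
    · exact absurd hw (map_ne _ _)
  · intro hw
    exact Or.inl ⟨_, hw, rfl⟩

open Classical in
theorem first (L : Set (List S)) (hL : IsReg L) (hm : 0 < m) :
    IsReg (LL L m 1) ∧ tc (LL L m 1) ≤ 2 * tc L + 1 := by
  obtain ⟨n, A, hA, hc⟩ := exists_opt hL
  let z : Fin m := ⟨0, hm⟩
  let d1 : Finset ((Fin n ⊕ Bool) × (S ⊕ Fin m) × (Fin n ⊕ Bool)) :=
    A.tr.image (fun t => (Sum.inl t.1, Sum.inl t.2.1, Sum.inl t.2.2))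
  let d2 : Finset ((Fin n ⊕ Bool) × (S ⊕ Fin m) × (Fin n ⊕ Bool)) :=
    (A.tr.filter fun t => t.1 = A.start).image
      (fun t => (Sum.inr false, Sum.inl t.2.1, Sum.inl t.2.2))
  let d3 : Finset ((Fin n ⊕ Bool) × (S ⊕ Fin m) × (Fin n ⊕ Bool)) :=
    {(Sum.inr false, Sum.inr z, Sum.inr true)}
  let F : Set (Fin n ⊕ Bool) := {x | (∃ q ∈ A.acc, x = Sum.inl q) ∨ x = Sum.inr true ∨
    (x = Sum.inr false ∧ A.start ∈ A.acc)}
  have h1 : ∀ (w : List (S ⊕ Fin m)) (p : Fin n) (x : Fin n ⊕ Bool),
      Run ((d1 ∪ (d2 ∪ d3) : Finset _) : Set ((Fin n ⊕ Bool) × (S ⊕ Fin m) × (Fin n ⊕ Bool)))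
        (Sum.inl p) w x ↔
      ∃ v q, w = v.map Sum.inl ∧ x = Sum.inl q ∧
        Run (A.tr : Set (Fin n × S × Fin n)) p v q := by
    intro w
    induction w with
    | nil =>
      intro p x
      constructor
      · intro h
        have h' : Sum.inl p = x := h
        exact ⟨[], p, rfl, h'.symm, rfl⟩
      · rintro ⟨v, q, h2, h3, h4⟩
        have h5 : v = [] := by
          cases v with
          | nil => rfl
          | cons a v => simp at h2
        subst h5
        have h6 : p = q := h4
        show Sum.inl p = x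
        rw [h3, h6]
    | cons a w ih =>
      intro p x
      constructor
      · rintro ⟨r, h2, h3⟩
        rw [Finset.mem_coe, Finset.mem_union, Finset.mem_union] at h2
        rcases h2 with h2 | h2 | h2
        · obtain ⟨t, ht, ht2⟩ := Finset.mem_image.1 h2
          simp only [Prod.mk.injEq, Sum.inl.injEq] at ht2
          obtain ⟨e1, e2, e3⟩ := ht2
          rw [← e3, ih] at h3
          obtain ⟨v, q, e4, e5, e6⟩ := h3
          refine ⟨t.2.1 :: v, q, by rw [List.map_cons, e2, e4], e5, t.2.2, ?_, e6⟩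
          rw [← e1]
          exact ht
        · obtain ⟨t, ht, ht2⟩ := Finset.mem_image.1 h2
          simp at ht2
        · rw [Finset.mem_singleton] at h2
          simp at h2
      · rintro ⟨v, q, h2, h3, h4⟩
        cases v with
        | nil => simp at h2
        | cons b v =>
          rw [List.map_cons, List.cons.injEq] at h2
          obtain ⟨r, h5, h6⟩ := h4
          refine ⟨Sum.inl r, ?_, (ih r x).2 ⟨v, q, h2.2, h3, h6⟩⟩
          rw [Finset.mem_coe, Finset.mem_union]
          left
          rw [Finset.mem_image]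
          exact ⟨(p, b, r), h5, by rw [h2.1]⟩
  have h2 : ∀ (w : List (S ⊕ Fin m)) (x : Fin n ⊕ Bool),
      Run ((d1 ∪ (d2 ∪ d3) : Finset _) : Set ((Fin n ⊕ Bool) × (S ⊕ Fin m) × (Fin n ⊕ Bool)))
        (Sum.inr true) w x → w = [] ∧ x = Sum.inr true := by
    intro w x h
    cases w with
    | nil =>
      have h' : Sum.inr true = x := h
      exact ⟨rfl, h'.symm⟩
    | cons a w =>
      exfalso
      obtain ⟨r, h3, _⟩ := h
      rw [Finset.mem_coe, Finset.mem_union, Finset.mem_union] at h3
      rcases h3 with h3 | h3 | h3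
      · obtain ⟨t, _, ht2⟩ := Finset.mem_image.1 h3
        simp at ht2
      · obtain ⟨t, _, ht2⟩ := Finset.mem_image.1 h3
        simp at ht2
      · rw [Finset.mem_singleton] at h3
        simp at h3
  have key := tc_le_of_type (LL L m 1) (Sum.inr false : Fin n ⊕ Bool) F (d1 ∪ (d2 ∪ d3)) (by
    intro w
    constructor
    · rintro (⟨v, hv, rfl⟩ | ⟨i, hi, rfl⟩)
      · rw [← hA] at hv
        obtain ⟨q, hq, hr⟩ := hv
        cases v with
        | nil =>
          have h3 : A.start = q := hr
          exact ⟨Sum.inr false, Or.inr (Or.inr ⟨rfl, by rw [h3]; exact hq⟩), rfl⟩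
        | cons a v =>
          obtain ⟨r, h3, h4⟩ := hr
          refine ⟨Sum.inl q, Or.inl ⟨q, hq, rfl⟩, Sum.inl r, ?_,
            (h1 _ r _).2 ⟨v, q, rfl, rfl, h4⟩⟩
          rw [Finset.mem_coe, Finset.mem_union, Finset.mem_union]
          right; left
          rw [Finset.mem_image]
          exact ⟨(A.start, a, r), Finset.mem_filter.2 ⟨h3, rfl⟩, rfl⟩
      · have hi0 : i = z := Fin.ext (by show i.val = 0; omega)
        subst hi0
        refine ⟨Sum.inr true, Or.inr (Or.inl rfl), Sum.inr true, ?_, rfl⟩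
        rw [Finset.mem_coe, Finset.mem_union, Finset.mem_union]
        right; right
        exact Finset.mem_singleton_self _
    · rintro ⟨x, hx, hr⟩
      cases w with
      | nil =>
        have h3 : Sum.inr false = x := hr
        rw [← h3] at hx
        rcases hx with ⟨q, _, h4⟩ | h4 | ⟨_, h4⟩
        · simp at h4
        · simp at h4
        · left
          refine ⟨[], ?_, rfl⟩
          rw [← hA]
          exact ⟨A.start, h4, rfl⟩
      | cons a w =>
        obtain ⟨r, h3, h4⟩ := hr
        rw [Finset.mem_coe, Finset.mem_union, Finset.mem_union] at h3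
        rcases h3 with h3 | h3 | h3
        · obtain ⟨t, _, ht2⟩ := Finset.mem_image.1 h3
          simp at ht2
        · obtain ⟨t, ht, ht2⟩ := Finset.mem_image.1 h3
          rw [Finset.mem_filter] at ht
          simp only [Prod.mk.injEq, true_and] at ht2
          obtain ⟨e2, e3⟩ := ht2
          rw [← e3, h1] at h4
          obtain ⟨v, q, e4, e5, e6⟩ := h4
          left
          refine ⟨t.2.1 :: v, ?_, by rw [List.map_cons, e2, e4]⟩
          rw [← hA]
          rcases hx with ⟨q', hq', h5⟩ | h5 | ⟨h5, _⟩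
          · rw [e5] at h5
            have h6 : q = q' := Sum.inl_injective h5
            refine ⟨q, by rw [h6]; exact hq', t.2.2, ?_, e6⟩
            rw [← ht.2]
            exact ht.1
          · rw [e5] at h5
            simp at h5
          · rw [e5] at h5
            simp at h5
        · rw [Finset.mem_singleton] at h3
          simp only [Prod.mk.injEq, true_and] at h3
          rw [h3.2] at h4
          obtain ⟨h5, _⟩ := h2 w x h4
          right
          exact ⟨z, by show 0 < 1; omega, by rw [h3.1, h5]⟩)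
  refine ⟨key.1, key.2.trans ?_⟩
  have c1 : d1.card ≤ A.tr.card := Finset.card_image_le
  have c2 : d2.card ≤ A.tr.card := Finset.card_image_le.trans (Finset.card_filter_le _ _)
  have c3 : d3.card = 1 := Finset.card_singleton _
  have c4 := Finset.card_union_le d1 (d2 ∪ d3)
  have c5 := Finset.card_union_le d2 d3
  omega

open Classical in
theorem step (L : Set (List S)) (j : ℕ) (hj : 1 ≤ j) (hjm : j < m) (hL : IsReg (LL L m j)) :
    IsReg (LL L m (j + 1)) ∧ tc (LL L m (j + 1)) ≤ tc (LL L m j) + 1 := by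
  obtain ⟨n, A, hA, hc⟩ := exists_opt hL
  have hm : 0 < m := by omega
  let z : Fin m := ⟨0, hm⟩
  let y : Fin m := ⟨j, hjm⟩
  have h0 : [Sum.inr z] ∈ A.lang := by
    rw [hA]
    exact Or.inr ⟨z, by show 0 < j; omega, rfl⟩
  obtain ⟨f, hf, r, hr, hr2⟩ := h0
  have hrf : r = f := hr2
  subst hrf
  have hrep : ∀ (w : List (S ⊕ Fin m)) (p q : Fin n),
      Run ((insert (A.start, Sum.inr y, r) A.tr : Finset _) :
        Set (Fin n × (S ⊕ Fin m) × Fin n)) p w q →
      ∃ w', Run (A.tr : Set (Fin n × (S ⊕ Fin m) × Fin n)) p w' q ∧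
        List.Forall₂ (fun a b => a = b ∨ (a = Sum.inr y ∧ b = Sum.inr z)) w w' := by
    intro w
    induction w with
    | nil =>
      intro p q h
      exact ⟨[], h, List.Forall₂.nil⟩
    | cons a w ih =>
      rintro p q ⟨s, h1, h2⟩
      obtain ⟨w', h3, h4⟩ := ih s q h2
      rw [Finset.mem_coe, Finset.mem_insert] at h1
      rcases h1 with h1 | h1
      · simp only [Prod.mk.injEq] at h1
        obtain ⟨e1, e2, e3⟩ := h1
        refine ⟨Sum.inr z :: w', ⟨s, ?_, h3⟩, List.Forall₂.cons (Or.inr ⟨e2, rfl⟩) h4⟩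
        rw [e1, e3]
        exact hr
      · exact ⟨a :: w', ⟨s, h1, h3⟩, List.Forall₂.cons (Or.inl rfl) h4⟩
  have key := tc_le_of_type (LL L m (j + 1)) A.start (A.acc : Set (Fin n))
    (insert (A.start, Sum.inr y, r) A.tr) (by
    intro w
    constructor
    · intro hw
      have hw' : w ∈ LL L m j ∨ w = [Sum.inr y] := by
        rcases hw with hw | ⟨i, hi, hw⟩
        · exact Or.inl (Or.inl hw)
        · by_cases hij : i.val < j
          · exact Or.inl (Or.inr ⟨i, hij, hw⟩)
          · right
            have hiy : i = y := Fin.ext (by show i.val = j; omega)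
            rw [hw, hiy]
      rcases hw' with hw' | hw'
      · rw [← hA] at hw'
        obtain ⟨q, hq, hrun⟩ := hw'
        refine ⟨q, hq, run_mono ?_ hrun⟩
        intro t ht
        rw [Finset.mem_coe] at ht ⊢
        exact Finset.mem_insert_of_mem ht
      · rw [hw']
        refine ⟨r, hf, r, ?_, rfl⟩
        rw [Finset.mem_coe]
        exact Finset.mem_insert_self _ _
    · rintro ⟨q, hq, hrun⟩
      obtain ⟨w', h3, h4⟩ := hrep w _ _ hrun
      have h5 : w' ∈ LL L m j := by
        rw [← hA]
        exact ⟨q, hq, h3⟩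
      rcases h5 with ⟨v, hv, h5⟩ | ⟨i, hi, h5⟩
      · left
        refine ⟨v, hv, ?_⟩
        rw [← h5]
        have h6 : ∀ (w w' : List (S ⊕ Fin m)) (v : List S),
            List.Forall₂ (fun a b => a = b ∨ (a = Sum.inr y ∧ b = Sum.inr z)) w w' →
            w' = v.map Sum.inl → w = w' := by
          intro w w' v h
          induction h generalizing v with
          | nil => intro _; rfl
          | cons h7 _ ih =>
            intro h8
            cases v with
            | nil => simp at h8
            | cons c v =>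
              rw [List.map_cons, List.cons.injEq] at h8
              rw [ih v h8.2]
              rcases h7 with h7 | ⟨_, h7⟩
              · rw [h7]
              · rw [h7] at h8
                simp at h8
        exact h6 w w' v h4 h5
      · right
        subst h5
        rw [List.forall₂_cons_right_iff] at h4
        obtain ⟨a, u, h6, h7, h8⟩ := h4
        rw [List.forall₂_nil_right_iff] at h7
        subst h7
        rcases h6 with h6 | ⟨h6, _⟩
        · exact ⟨i, by omega, by rw [h8, h6]⟩
        · exact ⟨y, by show j < j + 1; omega, by rw [h8, h6]⟩)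
  refine ⟨key.1, key.2.trans ?_⟩
  have h6 := Finset.card_insert_le (A.start, (Sum.inr y : S ⊕ Fin m), r) A.tr
  omega

open Classical in
theorem lower (L : Set (List S)) (hL : IsReg (LL L m m)) : m ≤ tc (LL L m m) := by
  obtain ⟨n, A, hA, hc⟩ := exists_opt hL
  rw [← hc]
  have h1 : (Finset.univ : Finset (Fin m)).image (Sum.inr : Fin m → S ⊕ Fin m) ⊆
      A.tr.image (fun t => t.2.1) := by
    intro x hx
    obtain ⟨i, _, rfl⟩ := Finset.mem_image.1 hx
    have h2 : [Sum.inr i] ∈ A.lang := by
      rw [hA]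
      exact Or.inr ⟨i, i.2, rfl⟩
    obtain ⟨q, _, r, hr, _⟩ := h2
    exact Finset.mem_image.2 ⟨(A.start, Sum.inr i, r), hr, rfl⟩
  have h2 := Finset.card_le_card h1
  rw [Finset.card_image_of_injective _ Sum.inr_injective, Finset.card_univ, Fintype.card_fin] at h2
  exact h2.trans Finset.card_image_le

end PAD

open PAD in
theorem t_PAD : S_PAD := by
  intro S _ L hL m hm
  have hm0 : 0 < m := by omega
  have hreg : ∀ j, 1 ≤ j → j ≤ m → IsReg (LL L m j) := by
    intro j hj
    induction j, hj using Nat.le_induction with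
    | base => intro _; exact (first L hL hm0).1
    | succ j hj ih =>
      intro hjm
      exact (step L j hj (by omega) (ih (by omega))).1
  obtain ⟨j, hj1, hjm, hjt⟩ : ∃ j, 1 ≤ j ∧ j ≤ m ∧ tc (LL L m j) = m := by
    classical
    have hex : ∃ j, 1 ≤ j ∧ m ≤ tc (LL L m j) := ⟨m, hm0, lower L (hreg m hm0 le_rfl)⟩
    have h1 := Nat.find_spec hex
    have h2 : Nat.find hex ≤ m := Nat.find_min' hex ⟨hm0, lower L (hreg m hm0 le_rfl)⟩
    refine ⟨Nat.find hex, h1.1, h2, le_antisymm ?_ h1.2⟩
    rcases Nat.eq_or_lt_of_le h1.1 with h3 | h3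
    · rw [← h3]
      exact (first L hL hm0).2.trans hm
    · obtain ⟨i, hi⟩ : ∃ i, Nat.find hex = i + 1 := ⟨Nat.find hex - 1, by omega⟩
      have h4 : ¬ (1 ≤ i ∧ m ≤ tc (LL L m i)) := Nat.find_min hex (by omega)
      have h5 : 1 ≤ i := by omega
      have h6 : tc (LL L m i) < m := by
        by_contra hcon
        exact h4 ⟨h5, by omega⟩
      rw [hi]
      have h7 := (step L i h5 (by omega) (hreg i h5 (by omega))).2
      omega
  refine ⟨S ⊕ Fin m, inferInstance, Sum.inl, LL L m j, hreg j hj1 hjm, hjt, fun k h => ?_⟩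
  exact preim_LL L j k h

end Pool.Agent.H560R3.TC
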