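import Pool.Agent.H560R3.TC.Stm

/-!
Task UP: the upper bound.
-/

set_option autoImplicit false

namespace Pool.Agent.H560R3.TC

theorem t_UP (h1 : S_UP0) (h2 : S_ARU) : S_UP := by
  intro k
  obtain ⟨C, hC⟩ := h2 k
  refine ⟨C, fun m hm t ht => ?_⟩
  obtain ⟨L, hL, hb⟩ := hC m hm
  have h3 := h1 k m L t hL ht
  exact (Nat.cast_le.mpr h3).trans hb

end Pool.Agent.H560R3.TC
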