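import Pool.Agent.H560R3.TC.Stm

/-! Task UP0. -/

set_option autoImplicit false

namespace Pool.Agent.H560R3.TC

theorem t_UP0 (h1 : S_BLK) (h2 : S_CMP) : S_UP0 := by
  rintro k m L t hL ⟨S, _, h, L', hreg, rfl, rfl⟩
  obtain ⟨n, A, hA, hc⟩ := exists_opt hreg
  obtain ⟨A', hA', _⟩ := trim A (tc L') hc.le
  have key := (h1 k (2 * tc L' + 1) L hL (Fin (2 * tc L' + 1)) (Fintype.card_fin _)
    {t | Run (A'.tr : Set (Fin (2 * tc L' + 1) × S × Fin (2 * tc L' + 1))) t.1 (h t.2.1) t.2.2}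
    A'.start (A'.acc : Set (Fin (2 * tc L' + 1)))).2
  have e : {w | ∃ q ∈ (A'.acc : Set (Fin (2 * tc L' + 1))), Run {t : Fin (2 * tc L' + 1) × Fin k ×
      Fin (2 * tc L' + 1) | Run (A'.tr : Set (Fin (2 * tc L' + 1) × S × Fin (2 * tc L' + 1)))
      t.1 (h t.2.1) t.2.2} A'.start w q} = preim h L' := by
    ext w
    have e1 : A'.lang = L' := hA'.trans hA
    have e2 : List.flatMap h w ∈ A'.lang ↔ List.flatMap h w ∈ L' := by rw [e1]
    have e3 : ∀ q, Run {t : Fin (2 * tc L' + 1) × Fin k × Fin (2 * tc L' + 1) |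
        Run (A'.tr : Set (Fin (2 * tc L' + 1) × S × Fin (2 * tc L' + 1)))
        t.1 (h t.2.1) t.2.2} A'.start w q ↔
        Run (A'.tr : Set (Fin (2 * tc L' + 1) × S × Fin (2 * tc L' + 1))) A'.start
          (w.flatMap h) q := fun q => h2 k _ S h _ w A'.start q
    refine Iff.trans ?_ e2
    constructor
    · rintro ⟨q, hq, hr⟩
      exact ⟨q, hq, (e3 q).1 hr⟩
    · rintro ⟨q, hq, hr⟩
      exact ⟨q, hq, (e3 q).2 hr⟩
  rw [e] at key
  exact key

end Pool.Agent.H560R3.TC
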